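import Pool.Agent.Q36.WW.Table

set_option autoImplicit false

namespace Q36.WW

open MvPolynomial
open scoped LinearAlgebra.Projectivization

/-- The complex vectors representing the thirteen points. -/
noncomputable def cv (j : Fin 9 ⊕ Fin 4) : Fin 3 → ℂ := fun k => GaussianInt.toComplex (av j k)

theorem tang0 (x y z : ℂ) (h1 : x = 0)
    (h2 : -y ^ 2 - z ^ 2 - x * y - x * z + 2 * (y * z) = 0) : x = 0 ∧ z = y := by
  refine ⟨h1, ?_⟩
  subst h1
  have : (z - y) ^ 2 = 0 := by linear_combination -h2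
  exact sub_eq_zero.mp (pow_eq_zero_iff (two_ne_zero) |>.mp this)

theorem tang1 (x y z t : ℂ) (ht : t ^ 2 = -1) (h1 : y = 0)
    (h2 : 2 * t * x ^ 2 - z ^ 2 + 2 * t * (x * y) + (2 - 2 * t) * (x * z) - y * z = 0) :
    y = 0 ∧ z = (1 - t) * x := by
  refine ⟨h1, ?_⟩
  subst h1
  have : (z - (1 - t) * x) ^ 2 = 0 := by linear_combination -h2 + x ^ 2 * ht
  exact sub_eq_zero.mp (pow_eq_zero_iff (two_ne_zero) |>.mp this)

theorem tang2 (x y z t : ℂ) (ht : t ^ 2 = -1) (h1 : z = 0)
    (h2 : -2 * t * x ^ 2 - y ^ 2 + (2 + 2 * t) * (x * y) - 2 * t * (x * z) - y * z = 0) :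
    z = 0 ∧ y = (1 + t) * x := by
  refine ⟨h1, ?_⟩
  subst h1
  have : (y - (1 + t) * x) ^ 2 = 0 := by linear_combination -h2 + x ^ 2 * ht
  exact sub_eq_zero.mp (pow_eq_zero_iff (two_ne_zero) |>.mp this)

theorem tang3 (x y z t : ℂ) (ht : t ^ 2 = -1) (h1 : x + y + z = 0)
    (h2 : (-3 - 4 * t) * (x * y) + (-3 + 4 * t) * (x * z) + 4 * (y * z) = 0) :
    2 * y = -(1 + 2 * t) * x ∧ 2 * z = (-1 + 2 * t) * x := by
  have hz : z = -x - y := by linear_combination h1
  subst hz
  have : (2 * y + (1 + 2 * t) * x) ^ 2 = 0 := by linear_combination -h2 + 4 * x ^ 2 * ht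
  have h3 := pow_eq_zero_iff (two_ne_zero) |>.mp this
  constructor
  · linear_combination h3
  · linear_combination -h3

/-- The last case of the computation of the base points. -/
theorem last (x y z w t : ℂ) (ht : t ^ 2 = -1) (hs : x + y + z + w = 0) (hz : z ≠ 0) 
    (h1 : z * w + y * w + 4 * y * z = 0) (h2 : z * w - 2 * t * x * w + (3 - 4 * t) * x * z = 0) :
    (x = (1 - t) * z ∧ y = (1 + 2 * t) * z) ∨ (5 * x = (-1 + 3 * t) * z ∧ 5 * y = (1 + 2 * t) * z) ∨
    (5 * x = (2 - t) * z ∧ 5 * y = (3 - 4 * t) * z) := by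
  have hy : y * (w + 4 * z) = - z * w := by linear_combination h1
  have hx : x * (2 * t * w + (-3 + 4 * t) * z) = z * w := by linear_combination -h2
  have key : 2 * t * ((w + (3 + t) * z) * (w + (1 + t) * z) * (w + (2 - t) * z)) = 0 := by
    grind
  have ht0 : t ≠ 0 := by
    rintro rfl
    norm_num at ht
  rcases mul_eq_zero.mp key with h | h
  · exact absurd h (by simpa using ht0)
  rcases mul_eq_zero.mp h with h | h
  · rcases mul_eq_zero.mp h with h | h
    · left
      grind
    · right; left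
      grind
  · right; right
    grind

/-- The common zeros of two of the members of the pencil are the nine base points. -/
theorem base (x y z t : ℂ) (ht : t ^ 2 = -1)
    (h1 : x * (-y ^ 2 - z ^ 2 - x * y - x * z + 2 * (y * z)) = 0)
    (h2 : y * (2 * t * x ^ 2 - z ^ 2 + 2 * t * (x * y) + (2 - 2 * t) * (x * z) - y * z) = 0) :
    (y = -x ∧ z = 0) ∨ (x = (1 - t) * z ∧ y = (1 + 2 * t) * z) ∨
    (5 * x = (-1 + 3 * t) * z ∧ 5 * y = (1 + 2 * t) * z) ∨
    (5 * x = (2 - t) * z ∧ 5 * y = (3 - 4 * t) * z) ∨ (x = 0 ∧ y = 0) ∨ (y = 0 ∧ z = 0) ∨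
    (y = 0 ∧ z = -x) ∨ (x = 0 ∧ z = 0) ∨ (x = 0 ∧ z = -y) := by
  by_cases hx : x = 0
  · subst hx
    have h3 : y * (z * (y + z)) = 0 := by linear_combination -h2
    rcases mul_eq_zero.mp h3 with h | h
    · simp [h]
    rcases mul_eq_zero.mp h with h | h
    · simp [h]
    · have : z = -y := by linear_combination h
      simp [this]
  have h1' := (mul_eq_zero.mp h1).resolve_left hx
  by_cases hy : y = 0
  · subst hy
    have h3 : z * (x + z) = 0 := by linear_combination -h1'
    rcases mul_eq_zero.mp h3 with h | h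
    · simp [h]
    · have : z = -x := by linear_combination h
      simp [this]
  have h2' := (mul_eq_zero.mp h2).resolve_left hy
  by_cases hz : z = 0
  · subst hz
    have h3 : y * (x + y) = 0 := by linear_combination -h1'
    rcases mul_eq_zero.mp h3 with h | h
    · exact absurd h hy
    · have : y = -x := by linear_combination h
      simp [this]
  have := last x y z (-(x + y + z)) t ht (by ring) hz (by linear_combination h1')
    (by linear_combination h2')
  tauto

end Q36.WW
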