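import Pool.Agent.Q36.WW.Defs

set_option autoImplicit false

namespace Q36.WW

open MvPolynomial

section generic

variable {R S : Type*} [CommRing R] [CommRing S]

/-- The values of the eight forms at a vector, with `t` in the role of the imaginary unit. -/
def E (t : R) (v : Fin 3 → R) : Fin 8 → R :=
  ![-(v 1) ^ 2 - (v 2) ^ 2 - v 0 * v 1 - v 0 * v 2 + 2 * (v 1 * v 2),
    2 * t * (v 0) ^ 2 - (v 2) ^ 2 + 2 * t * (v 0 * v 1) + (2 - 2 * t) * (v 0 * v 2) - v 1 * v 2,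
    -2 * t * (v 0) ^ 2 - (v 1) ^ 2 + (2 + 2 * t) * (v 0 * v 1) - 2 * t * (v 0 * v 2) - v 1 * v 2,
    (-3 - 4 * t) * (v 0 * v 1) + (-3 + 4 * t) * (v 0 * v 2) + 4 * (v 1 * v 2),
    v 0, v 1, v 2, v 0 + v 1 + v 2]

/-- The gradients of the eight forms at a vector. -/
def D (t : R) (v : Fin 3 → R) : Fin 8 → Fin 3 → R :=
  ![![-v 1 - v 2, -2 * v 1 - v 0 + 2 * v 2, -2 * v 2 - v 0 + 2 * v 1],
    ![4 * t * v 0 + 2 * t * v 1 + (2 - 2 * t) * v 2, 2 * t * v 0 - v 2,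
      -2 * v 2 + (2 - 2 * t) * v 0 - v 1],
    ![-4 * t * v 0 + (2 + 2 * t) * v 1 - 2 * t * v 2, -2 * v 1 + (2 + 2 * t) * v 0 - v 2,
      -2 * t * v 0 - v 1],
    ![(-3 - 4 * t) * v 1 + (-3 + 4 * t) * v 2, (-3 - 4 * t) * v 0 + 4 * v 2,
      (-3 + 4 * t) * v 0 + 4 * v 1],
    ![1, 0, 0], ![0, 1, 0], ![0, 0, 1], ![1, 1, 1]]

theorem map_E (φ : R →+* S) (t : R) (v : Fin 3 → R) (i : Fin 8) :
    φ (E t v i) = E (φ t) (fun k => φ (v k)) i := by
  have h2 : φ 2 = 2 := map_ofNat φ 2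
  have h3 : φ 3 = 3 := map_ofNat φ 3
  have h4 : φ 4 = 4 := map_ofNat φ 4
  fin_cases i <;> simp [E, h2, h3, h4]

theorem map_D (φ : R →+* S) (t : R) (v : Fin 3 → R) (i : Fin 8) (k : Fin 3) :
    φ (D t v i k) = D (φ t) (fun k => φ (v k)) i k := by
  have h2 : φ 2 = 2 := map_ofNat φ 2
  have h3 : φ 3 = 3 := map_ofNat φ 3
  have h4 : φ 4 = 4 := map_ofNat φ 4
  fin_cases i <;> fin_cases k <;> simp [D, h2, h3, h4]

/-- The degrees of the eight forms. -/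
def dg : Fin 8 → ℕ := ![2, 2, 2, 2, 1, 1, 1, 1]

theorem E_smul (t c : R) (v : Fin 3 → R) (i : Fin 8) :
    E t (c • v) i = c ^ dg i * E t v i := by
  fin_cases i <;> simp [E, dg] <;> ring

theorem D_smul (t c : R) (v : Fin 3 → R) (i : Fin 8) :
    D t (c • v) i = c ^ (dg i - 1) • D t v i := by
  funext k
  fin_cases i <;> fin_cases k <;> simp [D, dg] <;> ring

/-- The cross product. -/
def cr (a b : Fin 3 → R) : Fin 3 → R :=
  ![a 1 * b 2 - a 2 * b 1, a 2 * b 0 - a 0 * b 2, a 0 * b 1 - a 1 * b 0]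

theorem map_cr (φ : R →+* S) (a b : Fin 3 → R) (k : Fin 3) :
    φ (cr a b k) = cr (fun k => φ (a k)) (fun k => φ (b k)) k := by
  fin_cases k <;> simp [cr]

end generic

/-- The eight forms. -/
noncomputable def F : Fin 8 → MvPolynomial (Fin 3) ℂ := E (C Complex.I) X

theorem eval_F (v : Fin 3 → ℂ) (i : Fin 8) : eval v (F i) = E Complex.I v i := by
  have := map_E (eval v) (C Complex.I) (X : Fin 3 → MvPolynomial (Fin 3) ℂ) i
  simpa [F] using this

theorem pderiv_F (i : Fin 8) (k : Fin 3) : pderiv k (F i) = D (C Complex.I) X i k := by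
  have hn : ∀ n : ℕ, pderiv k ((n : ℕ) : MvPolynomial (Fin 3) ℂ) = 0 := fun n =>
    Derivation.map_natCast _ n
  have h2 : pderiv k (2 : MvPolynomial (Fin 3) ℂ) = 0 := by simpa using hn 2
  have h3 : pderiv k (3 : MvPolynomial (Fin 3) ℂ) = 0 := by simpa using hn 3
  have h4 : pderiv k (4 : MvPolynomial (Fin 3) ℂ) = 0 := by simpa using hn 4
  fin_cases i <;> fin_cases k <;>
    simp at h2 h3 h4 <;>
    simp [F, E, D, pderiv_X, Derivation.leibniz_pow, h2, h3, h4] <;> ring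

end Q36.WW
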