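import Mathlib

set_option autoImplicit false

namespace Q36.WW

open MvPolynomial
open scoped LinearAlgebra.Projectivization

/-- The gradient of a form `f` at (the chosen representative of) a point of the plane. -/
noncomputable def grad (f : MvPolynomial (Fin 3) ℂ) (p : ℙ ℂ (Fin 3 → ℂ)) : Fin 3 → ℂ :=
  fun i => eval p.rep (pderiv i f)

/-- The components of `W` passing through each of its nine quadruple points. The components
`0, 1, 2, 3` are the conics `C₁, C₂, C₃, C₄` and `4, 5, 6, 7` are the lines `L₁, L₂, L₃, L₄`. -/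
def quadruple : Fin 9 → Finset (Fin 8) :=
  ![{0, 1, 6, 7}, {0, 1, 2, 3}, {0, 1, 2, 3}, {0, 1, 2, 3}, {4, 5, 2, 3}, {0, 5, 6, 3},
    {0, 5, 2, 7}, {4, 1, 6, 3}, {4, 1, 2, 7}]

/-- The components of `W` passing through each of its four tangency points: `Cᵢ` and `Lᵢ`. -/
def tangency : Fin 4 → Finset (Fin 8) := ![{0, 4}, {1, 5}, {2, 6}, {3, 7}]

/-- The curve with components `f 0, ..., f 7` has weak combinatorial type `W`: `f 0, ..., f 3` are
smooth conics and `f 4, ..., f 7` are lines; there are thirteen distinct points, nine of them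
with exactly the components prescribed by `quadruple` passing through them, pairwise transversally,
and four of them with exactly the components prescribed by `tangency` passing through them,
and tangent there; and every point on two distinct components is one of the thirteen points. -/
structure HasTypeW (f : Fin 8 → MvPolynomial (Fin 3) ℂ) : Prop where
  conic : ∀ i : Fin 8, i < 4 → (f i).IsHomogeneous 2 ∧ ∀ p, grad (f i) p ≠ 0
  line : ∀ i : Fin 8, 4 ≤ i → (f i).IsHomogeneous 1 ∧ f i ≠ 0
  points : ∃ (P : Fin 9 → ℙ ℂ (Fin 3 → ℂ)) (T : Fin 4 → ℙ ℂ (Fin 3 → ℂ)),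
    Function.Injective (Sum.elim P T) ∧
    (∀ j i, eval (P j).rep (f i) = 0 ↔ i ∈ quadruple j) ∧
    (∀ j, ∀ i ∈ quadruple j, ∀ i' ∈ quadruple j, i ≠ i' →
      LinearIndependent ℂ ![grad (f i) (P j), grad (f i') (P j)]) ∧
    (∀ j i, eval (T j).rep (f i) = 0 ↔ i ∈ tangency j) ∧
    (∀ j, ∀ i ∈ tangency j, ∀ i' ∈ tangency j,
      ¬ LinearIndependent ℂ ![grad (f i) (T j), grad (f i') (T j)]) ∧
    ∀ p i i', i ≠ i' → eval p.rep (f i) = 0 → eval p.rep (f i') = 0 →
      (∃ j, p = P j) ∨ ∃ j, p = T j

end Q36.WW
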