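import Pool.Agent.Q36.WW.Main

set_option autoImplicit false

namespace Q36.WW

open MvPolynomial
open scoped LinearAlgebra.Projectivization

/-- Two distinct components meet only at the thirteen points. -/
theorem exhaust (v : Fin 3 → ℂ) (i i' : Fin 8) (hi : i ≠ i') (h : E Complex.I v i = 0)
    (h' : E Complex.I v i' = 0) : ∃ j, ∃ a : ℂ, v = a • cv j := by
  have hK : ∀ i : Fin 8, E Complex.I v i = 0 → K v ⟨i.1 % 4, Nat.mod_lt _ (by norm_num)⟩ = 0 := by
    intro i hi
    unfold K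
    by_cases h4 : i.1 < 4
    · have : (Fin.castLE (by norm_num) (⟨i.1 % 4, Nat.mod_lt _ (by norm_num)⟩ : Fin 4) : Fin 8)
          = i := by
        apply Fin.ext; simp; omega
      rw [this, hi, mul_zero]
    · have : (Fin.natAdd 4 (⟨i.1 % 4, Nat.mod_lt _ (by norm_num)⟩ : Fin 4) : Fin 8) = i := by
        apply Fin.ext; simp; omega
      rw [this, hi, zero_mul]
  by_cases hm : i.1 % 4 = i'.1 % 4
  · -- the conic and the line of the same index
    have aux : ∀ a b : Fin 8, a.1 < b.1 → a.1 % 4 = b.1 % 4 → E Complex.I v a = 0 →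
        E Complex.I v b = 0 → ∃ j, ∃ c : ℂ, v = c • cv j := by
      intro a b hab hmod ha hb
      have h1 : a.1 < 4 := by omega
      have e1 : (Fin.castLE (by norm_num) (⟨a.1, h1⟩ : Fin 4) : Fin 8) = a := by
        apply Fin.ext; simp
      have e2 : (Fin.natAdd 4 (⟨a.1, h1⟩ : Fin 4) : Fin 8) = b := by
        apply Fin.ext; simp; omega
      obtain ⟨c, hc⟩ := from_tang v ⟨a.1, h1⟩ (by rw [e1]; exact ha) (by rw [e2]; exact hb)
      exact ⟨_, c, hc⟩
    rcases lt_or_gt_of_ne (fun hh => hi (Fin.ext hh)) with hlt | hlt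
    · exact aux i i' hlt hm h h'
    · exact aux i' i hlt hm.symm h' h
  · have hz := K_zero v _ _ (by simpa [Fin.ext_iff] using hm) (hK i h) (hK i' h')
    obtain ⟨j, a, ha⟩ := from_base v (by simpa [K, E] using hz.1) (by simpa [K, E] using hz.2)
    exact ⟨_, a, ha⟩

theorem ctoc_gi : GaussianInt.toComplex gi = Complex.I := by
  simp [GaussianInt.toComplex_def, gi]

theorem cv_ne (j : Fin 9 ⊕ Fin 4) : cv j ≠ 0 := by
  obtain ⟨k, hk⟩ := tab_nz j
  intro h
  apply hk
  have := congrFun h k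
  simpa [cv] using this

/-- The thirteen points. -/
noncomputable def pt (j : Fin 9 ⊕ Fin 4) : ℙ ℂ (Fin 3 → ℂ) := .mk ℂ (cv j) (cv_ne j)

theorem E_cv (j : Fin 9 ⊕ Fin 4) (i : Fin 8) :
    E Complex.I (cv j) i = GaussianInt.toComplex (E gi (av j) i) := by
  rw [map_E, ctoc_gi]
  rfl

theorem D_cv (j : Fin 9 ⊕ Fin 4) (i : Fin 8) :
    D Complex.I (cv j) i = fun k => GaussianInt.toComplex (D gi (av j) i k) := by
  funext k
  rw [map_D, ctoc_gi]
  rfl

theorem rep_pt (j : Fin 9 ⊕ Fin 4) : ∃ a : ℂ, a ≠ 0 ∧ (pt j).rep = a • cv j := by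
  obtain ⟨a, ha⟩ := Projectivization.exists_smul_eq_mk_rep ℂ (cv j) (cv_ne j)
  exact ⟨a, a.ne_zero, ha.symm⟩

theorem grad_F (i : Fin 8) (p : ℙ ℂ (Fin 3 → ℂ)) : grad (F i) p = D Complex.I p.rep i := by
  funext k
  unfold grad
  rw [pderiv_F, map_D]
  simp

theorem eval_pt (j : Fin 9 ⊕ Fin 4) (i : Fin 8) :
    eval (pt j).rep (F i) = 0 ↔ E gi (av j) i = 0 := by
  obtain ⟨a, ha, h⟩ := rep_pt j
  rw [eval_F, h, E_smul, E_cv]
  simp [ha]

theorem cross_eq (a b : Fin 3 → ℂ) : crossProduct a b = cr a b := by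
  rw [cross_apply]
  rfl

theorem grad_cross (j : Fin 9 ⊕ Fin 4) (i i' : Fin 8) :
    LinearIndependent ℂ ![grad (F i) (pt j), grad (F i') (pt j)] ↔
      ∃ k, cr (D gi (av j) i) (D gi (av j) i') k ≠ 0 := by
  obtain ⟨a, ha, h⟩ := rep_pt j
  rw [← crossProduct_ne_zero_iff_linearIndependent, grad_F, grad_F, h, D_smul, D_smul, D_cv, D_cv,
    LinearMap.map_smul₂, LinearMap.map_smul, smul_smul, smul_ne_zero_iff]
  have h0 : a ^ (dg i - 1) * a ^ (dg i' - 1) ≠ 0 :=
    mul_ne_zero (pow_ne_zero _ ha) (pow_ne_zero _ ha)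
  rw [cross_eq, Function.ne_iff]
  constructor
  · rintro ⟨-, k, hk⟩
    refine ⟨k, fun h => hk ?_⟩
    rw [← map_cr, h]
    simp
  · rintro ⟨k, hk⟩
    refine ⟨h0, k, fun h => hk ?_⟩
    rw [← map_cr] at h
    simpa using h

theorem pt_inj : Function.Injective pt := by
  intro j j' h
  by_contra hne
  obtain ⟨k, hk⟩ := tab_ne j j' hne
  obtain ⟨a, ha⟩ := (Projectivization.mk_eq_mk_iff' ℂ _ _ (cv_ne j) (cv_ne j')).mp h
  have h2 : cr (cv j) (cv j') k = 0 := by
    rw [← ha]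
    fin_cases k <;> simp [cr] <;> ring
  apply hk
  have h3 := map_cr GaussianInt.toComplex (av j) (av j') k
  change _ = cr (cv j) (cv j') k at h3
  rw [h2] at h3
  simpa using h3

/-- A ternary quadratic form given by its coefficients. -/
noncomputable def Q (a b c d e f : ℂ) : MvPolynomial (Fin 3) ℂ :=
  C a * (X 0) ^ 2 + C b * (X 1) ^ 2 + C c * (X 2) ^ 2 + C d * (X 0 * X 1) + C e * (X 0 * X 2) +
    C f * (X 1 * X 2)

theorem Q_hom (a b c d e f : ℂ) : (Q a b c d e f).IsHomogeneous 2 := by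
  have h1 : ∀ (r : ℂ) (i : Fin 3), (C r * (X i) ^ 2 : MvPolynomial (Fin 3) ℂ).IsHomogeneous 2 :=
    fun r i => isHomogeneous_C_mul_X_pow r i 2
  have h2 : ∀ (r : ℂ) (i j : Fin 3), (C r * (X i * X j) : MvPolynomial (Fin 3) ℂ).IsHomogeneous 2 :=
    fun r i j => ((isHomogeneous_X ℂ i).mul (isHomogeneous_X ℂ j)).C_mul r
  exact (((((h1 a 0).add (h1 b 1)).add (h1 c 2)).add (h2 d 0 1)).add (h2 e 0 2)).add (h2 f 1 2)

theorem C_num2 : (C 2 : MvPolynomial (Fin 3) ℂ) = 2 := map_ofNat C 2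
theorem C_num3 : (C 3 : MvPolynomial (Fin 3) ℂ) = 3 := map_ofNat C 3
theorem C_num4 : (C 4 : MvPolynomial (Fin 3) ℂ) = 4 := map_ofNat C 4

theorem F0 : F 0 = Q 0 (-1) (-1) (-1) (-1) 2 := by
  simp [F, E, Q, C_num2]; ring

theorem F1 : F 1 = Q (2 * Complex.I) 0 (-1) (2 * Complex.I) (2 - 2 * Complex.I) (-1) := by
  simp [F, E, Q, C_num2]; ring

theorem F2 : F 2 = Q (-2 * Complex.I) (-1) 0 (2 + 2 * Complex.I) (-2 * Complex.I) (-1) := by
  simp [F, E, Q, C_num2]; ring

theorem F3 : F 3 = Q 0 0 0 (-3 - 4 * Complex.I) (-3 + 4 * Complex.I) 4 := by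
  simp [F, E, Q, C_num3, C_num4]

theorem conic_hom (i : Fin 8) (hi : i < 4) : (F i).IsHomogeneous 2 := by
  fin_cases i
  · exact F0 ▸ Q_hom _ _ _ _ _ _
  · exact F1 ▸ Q_hom _ _ _ _ _ _
  · exact F2 ▸ Q_hom _ _ _ _ _ _
  · exact F3 ▸ Q_hom _ _ _ _ _ _
  all_goals exact absurd hi (by decide)

theorem line_hom (i : Fin 8) (hi : 4 ≤ i) : (F i).IsHomogeneous 1 := by
  fin_cases i
  iterate 4 exact absurd hi (by decide)
  · exact isHomogeneous_X ℂ 0
  · exact isHomogeneous_X ℂ 1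
  · exact isHomogeneous_X ℂ 2
  · exact ((isHomogeneous_X ℂ 0).add (isHomogeneous_X ℂ 1)).add (isHomogeneous_X ℂ 2)

theorem line_ne (i : Fin 8) (hi : 4 ≤ i) : F i ≠ 0 := by
  intro h
  have h1 : ∀ v : Fin 3 → ℂ, E Complex.I v i = 0 := by
    intro v
    rw [← eval_F, h]
    simp
  have h2 := h1 (fun _ => 1)
  fin_cases i
  iterate 4 exact absurd hi (by decide)
  all_goals norm_num [E] at h2

/-- The gradient of a smooth conic has no zero. -/
theorem conic_smooth (i : Fin 8) (hi : i < 4) (v : Fin 3 → ℂ) (h : D Complex.I v i = 0) :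
    v = 0 := by
  have hI : Complex.I ^ 2 = -1 := Complex.I_sq
  have h0 := congrFun h 0
  have h1 := congrFun h 1
  have h2 := congrFun h 2
  fin_cases i
  · simp [D] at h0 h1 h2
    have a0 : v 0 = 0 := by grind
    have a1 : v 1 = 0 := by grind
    have a2 : v 2 = 0 := by grind
    funext k; fin_cases k <;> simp [a0, a1, a2]
  · simp [D] at h0 h1 h2
    have a0 : v 0 = 0 := by grind
    have a1 : v 1 = 0 := by grind
    have a2 : v 2 = 0 := by grind
    funext k; fin_cases k <;> simp [a0, a1, a2]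
  · simp [D] at h0 h1 h2
    have a0 : v 0 = 0 := by grind
    have a1 : v 1 = 0 := by grind
    have a2 : v 2 = 0 := by grind
    funext k; fin_cases k <;> simp [a0, a1, a2]
  · simp [D] at h0 h1 h2
    have a0 : v 0 = 0 := by grind
    have a1 : v 1 = 0 := by grind
    have a2 : v 2 = 0 := by grind
    funext k; fin_cases k <;> simp [a0, a1, a2]
  all_goals exact absurd hi (by decide)

theorem realizable : ∃ f, HasTypeW f := by
  refine ⟨F, ⟨fun i hi => ⟨conic_hom i hi, fun p hp => ?_⟩,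
    fun i hi => ⟨line_hom i hi, line_ne i hi⟩, ?_⟩⟩
  · rw [grad_F] at hp
    exact p.rep_nonzero (conic_smooth i hi _ hp)
  · refine ⟨fun j => pt (Sum.inl j), fun j => pt (Sum.inr j), ?_, ?_, ?_, ?_, ?_, ?_⟩
    · have : (Sum.elim (fun j => pt (Sum.inl j)) fun j => pt (Sum.inr j)) = pt := by
        funext j
        cases j <;> rfl
      rw [this]
      exact pt_inj
    · intro j i
      rw [eval_pt]
      exact tab_q j i
    · intro j i hi i' hi' hne
      rw [grad_cross]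
      exact tab_qd j i hi i' hi' hne
    · intro j i
      rw [eval_pt]
      exact tab_t j i
    · intro j i hi i' hi' hl
      rw [grad_cross] at hl
      obtain ⟨k, hk⟩ := hl
      exact hk (tab_td j i hi i' hi' k)
    · intro p i i' hne h h'
      rw [eval_F] at h h'
      obtain ⟨j, a, ha⟩ := exhaust _ i i' hne h h'
      have hp : p = pt j := by
        rw [← p.mk_rep]
        exact (Projectivization.mk_eq_mk_iff' ℂ _ _ _ _).mpr ⟨a, ha.symm⟩
      cases j with
      | inl j => exact Or.inl ⟨j, hp⟩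
      | inr j => exact Or.inr ⟨j, hp⟩

end Q36.WW
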