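import Pool.Agent.Q36.WW.Base

set_option autoImplicit false

namespace Q36.WW

open MvPolynomial
open scoped LinearAlgebra.Projectivization

theorem vec_eq {v : Fin 3 → ℂ} {a : ℂ} {w : Fin 3 → ℂ} (h0 : v 0 = a * w 0) (h1 : v 1 = a * w 1)
    (h2 : v 2 = a * w 2) : v = a • w := by
  funext k
  fin_cases k <;> simp [h0, h1, h2]

theorem from_base (v : Fin 3 → ℂ)
    (h1 : v 0 * E Complex.I v 0 = 0) (h2 : v 1 * E Complex.I v 1 = 0) :
    ∃ j, ∃ a : ℂ, v = a • cv (Sum.inl j) := by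
  have hI : Complex.I ^ 2 = -1 := Complex.I_sq
  have := base (v 0) (v 1) (v 2) Complex.I hI (by simpa [E] using h1) (by simpa [E] using h2)
  rcases this with h | h | h | h | h | h | h | h | h
  · refine ⟨0, v 0, vec_eq ?_ ?_ ?_⟩ <;> simp [cv, av, qv, GaussianInt.toComplex_def, h]
  · refine ⟨1, v 2 * ((-3 - Complex.I) / 10), vec_eq ?_ ?_ ?_⟩ <;>
      simp [cv, av, qv, GaussianInt.toComplex_def, h] <;> grind
  · refine ⟨2, v 2 * ((-1 - Complex.I) / 10), vec_eq ?_ ?_ ?_⟩ <;>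
      simp [cv, av, qv, GaussianInt.toComplex_def] <;> grind
  · refine ⟨3, v 2 * ((-2 + Complex.I) / 5), vec_eq ?_ ?_ ?_⟩ <;>
      simp [cv, av, qv, GaussianInt.toComplex_def] <;> grind
  · refine ⟨4, v 2, vec_eq ?_ ?_ ?_⟩ <;> simp [cv, av, qv, GaussianInt.toComplex_def, h]
  · refine ⟨5, v 0, vec_eq ?_ ?_ ?_⟩ <;> simp [cv, av, qv, GaussianInt.toComplex_def, h]
  · refine ⟨6, v 0, vec_eq ?_ ?_ ?_⟩ <;> simp [cv, av, qv, GaussianInt.toComplex_def, h]
  · refine ⟨7, v 1, vec_eq ?_ ?_ ?_⟩ <;> simp [cv, av, qv, GaussianInt.toComplex_def, h]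
  · refine ⟨8, v 1, vec_eq ?_ ?_ ?_⟩ <;> simp [cv, av, qv, GaussianInt.toComplex_def, h]

theorem from_tang (v : Fin 3 → ℂ) (k : Fin 4)
    (h1 : E Complex.I v (Fin.castLE (by norm_num) k) = 0)
    (h2 : E Complex.I v (Fin.natAdd 4 k) = 0) :
    ∃ a : ℂ, v = a • cv (Sum.inr k) := by
  have hI : Complex.I ^ 2 = -1 := Complex.I_sq
  fin_cases k
  · have := tang0 (v 0) (v 1) (v 2) (by simpa [E] using h2) (by simpa [E] using h1)
    refine ⟨v 1, vec_eq ?_ ?_ ?_⟩ <;> simp [cv, av, tv, GaussianInt.toComplex_def, this]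
  · have := tang1 (v 0) (v 1) (v 2) _ hI (by simpa [E] using h2) (by simpa [E] using h1)
    refine ⟨v 0, vec_eq ?_ ?_ ?_⟩ <;> simp [cv, av, tv, GaussianInt.toComplex_def, this]; ring
  · have := tang2 (v 0) (v 1) (v 2) _ hI (by simpa [E] using h2) (by simpa [E] using h1)
    refine ⟨v 0, vec_eq ?_ ?_ ?_⟩ <;> simp [cv, av, tv, GaussianInt.toComplex_def, this]; ring
  · have := tang3 (v 0) (v 1) (v 2) _ hI (by simpa [E] using h2) (by simpa [E] using h1)
    refine ⟨v 0 / 2, vec_eq ?_ ?_ ?_⟩ <;> simp [cv, av, tv, GaussianInt.toComplex_def] <;> grind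

/-- The product of the line and the conic of index `k`. -/
noncomputable def K (v : Fin 3 → ℂ) (k : Fin 4) : ℂ :=
  E Complex.I v (Fin.natAdd 4 k) * E Complex.I v (Fin.castLE (by norm_num) k)

theorem K2 (v : Fin 3 → ℂ) : K v 2 = 2 * Complex.I * K v 0 + K v 1 := by
  have hI : Complex.I ^ 2 = -1 := Complex.I_sq
  simp [K, E]
  grind

theorem K3 (v : Fin 3 → ℂ) : K v 3 = (3 - 4 * Complex.I) * K v 0 - 4 * K v 1 := by
  have hI : Complex.I ^ 2 = -1 := Complex.I_sq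
  simp [K, E]
  grind

theorem K_zero (v : Fin 3 → ℂ) (k k' : Fin 4) (hk : k ≠ k') (h : K v k = 0) (h' : K v k' = 0) :
    K v 0 = 0 ∧ K v 1 = 0 := by
  have hI : Complex.I ^ 2 = -1 := Complex.I_sq
  have h2 := K2 v
  have h3 := K3 v
  fin_cases k <;> fin_cases k' <;> simp at hk h h' <;> constructor <;> grind

end Q36.WW
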