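import Pool.Agent.Q36.WW.Data

set_option autoImplicit false

namespace Q36.WW

open MvPolynomial
open scoped LinearAlgebra.Projectivization

/-- The imaginary unit of the Gaussian integers. -/
def gi : GaussianInt := ⟨0, 1⟩

/-- Vectors representing the nine quadruple points. -/
def qv : Fin 9 → Fin 3 → GaussianInt :=
  ![![1, -1, 0], ![⟨-2, 4⟩, ⟨-5, -5⟩, ⟨-3, 1⟩], ![⟨-2, -4⟩, ⟨-3, -1⟩, ⟨-5, 5⟩],
    ![-1, ⟨-2, 1⟩, ⟨-2, -1⟩], ![0, 0, 1], ![1, 0, 0], ![1, 0, -1], ![0, 1, 0], ![0, 1, -1]]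

/-- Vectors representing the four tangency points. -/
def tv : Fin 4 → Fin 3 → GaussianInt :=
  ![![0, 1, 1], ![1, 0, ⟨1, -1⟩], ![1, ⟨1, 1⟩, 0], ![2, ⟨-1, -2⟩, ⟨-1, 2⟩]]

/-- Vectors representing the thirteen points. -/
def av : Fin 9 ⊕ Fin 4 → Fin 3 → GaussianInt := Sum.elim qv tv

theorem tab_q : ∀ j i, E gi (qv j) i = 0 ↔ i ∈ quadruple j := by decide +kernel

theorem tab_t : ∀ j i, E gi (tv j) i = 0 ↔ i ∈ tangency j := by decide +kernel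

theorem tab_qd : ∀ j, ∀ i ∈ quadruple j, ∀ i' ∈ quadruple j, i ≠ i' →
    ∃ k, cr (D gi (qv j) i) (D gi (qv j) i') k ≠ 0 := by decide +kernel

theorem tab_td : ∀ j, ∀ i ∈ tangency j, ∀ i' ∈ tangency j,
    ∀ k, cr (D gi (tv j) i) (D gi (tv j) i') k = 0 := by decide +kernel

theorem tab_ne : ∀ j j', j ≠ j' → ∃ k, cr (av j) (av j') k ≠ 0 := by decide +kernel

theorem tab_nz : ∀ j, ∃ k, av j k ≠ 0 := by decide +kernel

end Q36.WW
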